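import Pool.Agent.R304.UN.Core
import Pool.Agent.R304.UG.Synd
import Pool.Agent.R482.GB.Idx

/-! Indices of the ordinates in sets of universality. -/

open Complex Filter Topology Set MeasureTheory

namespace Pool.Agent.R304.UB

open ZU H370 H370.A2 H370.AS H295SI TH803TW TH803UC R304.UN
open SG (NZ ord zmult)

open Classical in
/-- the number of the indices `n ≤ NZ T` with `ord n ∈ E` -/
noncomputable def bb (E : Set ℝ) (T : ℝ) : ℝ :=
  (((Finset.Icc 1 (NZ T)).filter (fun n => ord n ∈ E)).card : ℝ)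

lemma bb_le (E : Set ℝ) (T : ℝ) : bb E T ≤ NZ T := by
  classical
  unfold bb
  have h := Finset.card_filter_le (Finset.Icc 1 (NZ T)) (fun n => ord n ∈ E)
  rw [Nat.card_Icc, Nat.add_sub_cancel] at h
  exact_mod_cast h

lemma bb_step (hRH : RiemannHypothesis) (E : Set ℝ) {η : ℝ} {T : ℝ} (hT : 1 ≤ T)
    (h : NU riemannZeta T (2 * T) (fun t => t ∈ E) ≤ η * (NN riemannZeta T (2 * T) : ℝ)) :
    bb E (2 * T) ≤ bb E T + η * ((NZ (2 * T) : ℝ) - NZ T) := by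
  classical
  have h1 := R482.GB.sum_idx hRH hT (by linarith : T ≤ 2 * T) (fun t => if t ∈ E then (1 : ℝ) else 0)
  have h2 : ∑ s ∈ Zf riemannZeta T (2 * T), (mult riemannZeta s : ℝ) *
      (if s.im ∈ E then (1 : ℝ) else 0) = NU riemannZeta T (2 * T) (fun t => t ∈ E) := by
    unfold NU
    rw [Finset.sum_filter]
    refine Finset.sum_congr rfl fun s _ => ?_
    split_ifs <;> simp
  have h3 : ∑ n ∈ Finset.Ioc (NZ T) (NZ (2 * T)), (if ord n ∈ E then (1 : ℝ) else 0) =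
      (((Finset.Ioc (NZ T) (NZ (2 * T))).filter (fun n => ord n ∈ E)).card : ℝ) := by
    rw [Finset.sum_ite, Finset.sum_const_zero, add_zero, Finset.sum_const, nsmul_eq_mul, mul_one]
  have hmono : NZ T ≤ NZ (2 * T) := SG.NZ_mono (by linarith)
  have h4 : bb E (2 * T) ≤ bb E T +
      (((Finset.Ioc (NZ T) (NZ (2 * T))).filter (fun n => ord n ∈ E)).card : ℝ) := by
    unfold bb
    have h5 : (Finset.Icc 1 (NZ (2 * T))).filter (fun n => ord n ∈ E) ⊆
        (Finset.Icc 1 (NZ T)).filter (fun n => ord n ∈ E) ∪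
          (Finset.Ioc (NZ T) (NZ (2 * T))).filter (fun n => ord n ∈ E) := by
      intro n hn
      rw [Finset.mem_filter, Finset.mem_Icc] at hn
      rw [Finset.mem_union, Finset.mem_filter, Finset.mem_filter, Finset.mem_Icc, Finset.mem_Ioc]
      rcases le_or_gt n (NZ T) with h6 | h6
      · exact Or.inl ⟨⟨hn.1.1, h6⟩, hn.2⟩
      · exact Or.inr ⟨⟨h6, hn.1.2⟩, hn.2⟩
    have h7 := (Finset.card_le_card h5).trans (Finset.card_union_le _ _)
    exact_mod_cast h7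
  have h5 : (NN riemannZeta T (2 * T) : ℝ) = (NZ (2 * T) : ℝ) - NZ T := by
    have h6 := R482.GB.NZ_add hT (by linarith : T ≤ 2 * T)
    have h7 : (NZ (2 * T) : ℝ) = NZ T + ((∑ s ∈ Zf riemannZeta T (2 * T), mult riemannZeta s : ℕ) : ℝ) := by
      exact_mod_cast h6
    rw [h7, H370.NN_eq good_zeta hT]
    ring
  rw [h5] at h
  rw [h2, h3] at h1
  linarith

lemma bb_all (hRH : RiemannHypothesis) (E : Set ℝ) {η T0 : ℝ} (hη : 0 ≤ η) (hT0 : 1 ≤ T0)
    (h : ∀ T : ℝ, T0 ≤ T →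
      NU riemannZeta T (2 * T) (fun t => t ∈ E) ≤ η * (NN riemannZeta T (2 * T) : ℝ)) :
    ∀ T : ℝ, T0 ≤ T → bb E T ≤ η * NZ T + NZ (2 * T0) := by
  have main : ∀ k : ℕ, ∀ T : ℝ, T0 ≤ T → T ≤ 2 ^ k * (2 * T0) →
      bb E T ≤ η * NZ T + NZ (2 * T0) := by
    intro k
    induction k with
    | zero =>
      intro T hT1 hT2
      rw [pow_zero, one_mul] at hT2
      have h1 := bb_le E T
      have h2 : (NZ T : ℝ) ≤ NZ (2 * T0) := by exact_mod_cast SG.NZ_mono hT2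
      have h3 : 0 ≤ η * NZ T := by positivity
      linarith
    | succ k ih =>
      intro T hT1 hT2
      rcases le_or_gt T (2 * T0) with h1 | h1
      · have h1' := bb_le E T
        have h2 : (NZ T : ℝ) ≤ NZ (2 * T0) := by exact_mod_cast SG.NZ_mono h1
        have h3 : 0 ≤ η * NZ T := by positivity
        linarith
      · have h2 := ih (T / 2) (by linarith) (by rw [pow_succ] at hT2; linarith)
        have h3 := bb_step hRH E (η := η) (T := T / 2) (by linarith) (h _ (by linarith))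
        have e : 2 * (T / 2) = T := by ring
        rw [e] at h3
        nlinarith
  intro T hT
  obtain ⟨k, hk⟩ := pow_unbounded_of_one_lt T (one_lt_two : (1 : ℝ) < 2)
  refine main k T hT (hk.le.trans ?_)
  have : (0 : ℝ) < 2 ^ k := by positivity
  nlinarith

/-- the number of zeros up to the `N`-th ordinate -/
lemma NZ_ord_le : ∃ C : ℝ, 1 ≤ C ∧ ∃ N0 : ℕ, ∀ N : ℕ, N0 ≤ N → (NZ (ord N) : ℝ) ≤ C * N := by
  obtain ⟨C, T3, hC, hT3, hup⟩ := UG.NZ_upper
  obtain ⟨T4, hT4, hlow⟩ := NN_low good_zeta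
  refine ⟨28 * C + 1, by linarith, ?_⟩
  have ev := SG.ord_tendsto.eventually_ge_atTop (4 * (|T3| + |T4| + 10))
  obtain ⟨N0, hN0⟩ := (ev.and (eventually_ge_atTop 1)).exists_forall_of_atTop
  refine ⟨N0, fun N hN => ?_⟩
  obtain ⟨h1, hN1⟩ := hN0 N hN
  obtain ⟨T, hT⟩ : ∃ T : ℝ, T = ord N / 4 := ⟨_, rfl⟩
  have a3 := le_abs_self T3
  have a4 := le_abs_self T4
  have b3 := abs_nonneg T3
  have b4 := abs_nonneg T4
  have hT10 : 10 ≤ T := by linarith
  have h3 := hlow T (by linarith)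
  have h4 := hup (2 * T) (by linarith)
  have e : 2 * (2 * T) = ord N := by rw [hT]; ring
  rw [e] at h4
  have h5 : NZ (2 * T) < N := by
    by_contra hcon
    push Not at hcon
    have := (SG.ord_le_iff hN1 (2 * T)).mpr hcon
    linarith
  have h6 : NZ T + NN riemannZeta T (2 * T) ≤ NZ (2 * T) :=
    UG.NZ_add_NN T (2 * T) (by linarith) (by linarith)
  have h7 : (NN riemannZeta T (2 * T) : ℝ) ≤ N := by
    have : NN riemannZeta T (2 * T) ≤ N := by omega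
    exact_mod_cast this
  have hlogT : 1 ≤ Real.log T := by
    rw [Real.le_log_iff_exp_le (by linarith)]
    have := Real.exp_one_lt_d9
    linarith
  have h8 : Real.log (2 * T) ≤ 2 * Real.log T := by
    have h5 : Real.log (2 * T) ≤ Real.log (T ^ 2) := by
      apply Real.log_le_log (by linarith)
      nlinarith
    rw [Real.log_pow] at h5
    push_cast at h5
    exact h5
  have h9 : C * (2 * T * Real.log (2 * T)) ≤ C * (2 * T * (2 * Real.log T)) := by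
    apply mul_le_mul_of_nonneg_left _ hC.le
    apply mul_le_mul_of_nonneg_left h8 (by linarith)
  have h10 : C * (2 * T * (2 * Real.log T)) = 4 * C * (T * Real.log T) := by ring
  have h11 : 4 * C * (T * Real.log T) ≤ 4 * C * (7 * (N : ℝ)) :=
    mul_le_mul_of_nonneg_left (h3.trans (by linarith)) (by positivity)
  have h12 : (0 : ℝ) ≤ N := Nat.cast_nonneg N
  linarith

open Classical in
/-- few indices -/
theorem few_idx (hRH : RiemannHypothesis) : ∃ C : ℝ, 0 < C ∧ ∀ (E : Set ℝ) (η T0 : ℝ), 0 < η →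
    1 ≤ T0 → (∀ T : ℝ, T0 ≤ T →
      NU riemannZeta T (2 * T) (fun t => t ∈ E) ≤ η * (NN riemannZeta T (2 * T) : ℝ)) →
    ∃ N0 : ℕ, ∀ N : ℕ, N0 ≤ N →
      (((Finset.Icc 1 N).filter (fun n => ord n ∈ E)).card : ℝ) ≤ C * η * N := by
  obtain ⟨C, hC, N1, hN1⟩ := NZ_ord_le
  refine ⟨C + 1, by linarith, fun E η T0 hη hT0 h => ?_⟩
  have ev := SG.ord_tendsto.eventually_ge_atTop T0
  obtain ⟨N2, hN2⟩ := (ev.and (eventually_ge_atTop 1)).exists_forall_of_atTop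
  obtain ⟨N3, hN3⟩ := exists_nat_ge ((NZ (2 * T0) : ℝ) / η)
  refine ⟨max N1 (max N2 N3), fun N hN => ?_⟩
  have hNa : N1 ≤ N := (le_max_left _ _).trans hN
  have hNb : N2 ≤ N := ((le_max_left _ _).trans (le_max_right _ _)).trans hN
  have hNc : N3 ≤ N := ((le_max_right _ _).trans (le_max_right _ _)).trans hN
  obtain ⟨h1, h2⟩ := hN2 N hNb
  have h3 := bb_all hRH E hη.le hT0 h (ord N) h1
  have h4 : (((Finset.Icc 1 N).filter (fun n => ord n ∈ E)).card : ℝ) ≤ bb E (ord N) := by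
    unfold bb
    have h5 : (Finset.Icc 1 N).filter (fun n => ord n ∈ E) ⊆
        (Finset.Icc 1 (NZ (ord N))).filter (fun n => ord n ∈ E) := by
      intro n hn
      rw [Finset.mem_filter, Finset.mem_Icc] at hn ⊢
      exact ⟨⟨hn.1.1, hn.1.2.trans (SG.le_NZ_ord h2)⟩, hn.2⟩
    exact_mod_cast Finset.card_le_card h5
  have h5 := hN1 N hNa
  have h6 : (NZ (2 * T0) : ℝ) ≤ η * N := by
    rw [div_le_iff₀ hη] at hN3
    have h7 : (N3 : ℝ) ≤ N := by exact_mod_cast hNc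
    nlinarith
  have h7 : η * (NZ (ord N) : ℝ) ≤ η * (C * N) := mul_le_mul_of_nonneg_left h5 hη.le
  have h8 : (C + 1) * η * N = η * (C * N) + η * N := by ring
  linarith

/-- **transfer from open sets of the torus to sets of universality** -/
theorem core_idx (hRH : RiemannHypothesis) {K : Set ℂ} (hK : IsCompact K)
    (hKs : K ⊆ {z | 1 / 2 < z.re ∧ z.re < 1})
    (f : ℂ → ℂ) {ε' ε : ℝ} (hlt : ε' < ε) {D : ℝ} (hD0 : 0 < D)
    (hD : ∃ᶠ X : ℝ in atTop, ENNReal.ofReal (D * X) ≤ volume (SS ε' K f ∩ Icc 0 X))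
    {η : ℝ} (hη : 0 < η) : ∃ (M : ℕ) (U : Set (UnitAddTorus (Fin (pr M).card))), IsOpen U ∧
      D - η ≤ (haarT _ U).toReal ∧ ∃ N0 : ℕ, ∀ N : ℕ, N0 ≤ N → ∀ P : ℕ → Prop,
        ({n : ℕ | 1 ≤ n ∧ n ≤ N ∧ torusPt (al M) (ord n) ∈ U ∧ P n}.ncard : ℝ) ≤
          ({n : ℕ | 1 ≤ n ∧ n ≤ N ∧ ord n ∈ SS ε K f ∧ P n}.ncard : ℝ) + η * N := by
  classical
  -- `f` is bounded on `K`
  obtain ⟨Cf, hCf0, hCf⟩ : ∃ Cf : ℝ, 0 ≤ Cf ∧ ∀ z ∈ K, ‖f z‖ ≤ Cf := by
    obtain ⟨X, hX1, hX2⟩ := (hD.and_eventually (eventually_gt_atTop 0)).exists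
    have h1 : 0 < volume (SS ε' K f ∩ Icc 0 X) :=
      lt_of_lt_of_le (ENNReal.ofReal_pos.2 (mul_pos hD0 hX2)) hX1
    have h2 : (SS ε' K f ∩ Icc 0 X).Nonempty := by
      by_contra hcon
      rw [Set.not_nonempty_iff_eq_empty] at hcon
      rw [hcon, measure_empty] at h1
      exact lt_irrefl _ h1
    obtain ⟨t, ht, -⟩ := h2
    exact bounded_of_mem hK hKs ht
  obtain ⟨a, b, B, h1, h2, h3, h4, hsub⟩ := exists_rectW K hK hKs
  obtain ⟨R, hR⟩ : ∃ R, R = Cf + |ε| + |ε'| + 1 := ⟨_, rfl⟩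
  have hR0 : 0 < R := by
    have := abs_nonneg ε
    have := abs_nonneg ε'
    linarith
  obtain ⟨θ, hθ⟩ : ∃ θ, θ = min (1 / 2) ((ε - ε') / (12 * R)) := ⟨_, rfl⟩
  have hεε : 0 < ε - ε' := by linarith
  have hθ0 : 0 < θ := by rw [hθ]; positivity
  have hθ1 : θ ≤ 1 / 2 := by rw [hθ]; exact min_le_left _ _
  have hθR : θ * (2 * R) ≤ (ε - ε') / 6 := by
    have : θ ≤ (ε - ε') / (12 * R) := by rw [hθ]; exact min_le_right _ _
    calc θ * (2 * R) ≤ (ε - ε') / (12 * R) * (2 * R) := by gcongr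
      _ = (ε - ε') / 6 := by field_simp; ring
  obtain ⟨C, hC, hfew⟩ := few_idx hRH
  obtain ⟨η1, hη1⟩ : ∃ η1, η1 = min (η / 5) (η / C) := ⟨_, rfl⟩
  have hη10 : 0 < η1 := by rw [hη1]; positivity
  have hη1a : η1 ≤ η / 5 := by rw [hη1]; exact min_le_left _ _
  have hη1b : C * η1 ≤ η := by
    have : η1 ≤ η / C := by rw [hη1]; exact min_le_right _ _
    rw [le_div_iff₀ hC] at this
    linarith
  obtain ⟨M1, hM1⟩ := bad_measure a b B θ η1 h1 h2 h3 h4 hθ0 hη10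
  obtain ⟨M2, hM2⟩ := bad_zeros a b B θ η1 h1 h2 h3 h4 hθ0 hη10
  obtain ⟨M, hM⟩ : ∃ M, M = max M1 M2 := ⟨_, rfl⟩
  obtain ⟨X1', hX1', hmeas⟩ := hM1 M (by rw [hM]; exact le_max_left _ _)
  obtain ⟨T1, hT1, hzer⟩ := hM2 M (by rw [hM]; exact le_max_right _ _)
  have hθθ : ε' + (ε - ε') / 3 < ε' + 2 * (ε - ε') / 3 := by linarith
  obtain ⟨X2', hX2', htime⟩ := time_le (by linarith) M hsub f hθθ hη10
  set μ : ℝ := (haarT _ (VV M K f (ε' + 2 * (ε - ε') / 3))).toReal with hμ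
  -- comparison of the densities
  have hDμ : D ≤ μ + 3 * η1 := by
    obtain ⟨X, hX1, hX2⟩ := (hD.and_eventually (eventually_ge_atTop (max X1' X2'))).exists
    have hXa : X1' ≤ X := (le_max_left _ _).trans hX2
    have hXb : X2' ≤ X := (le_max_right _ _).trans hX2
    have hX0 : 0 < X := hX1'.trans_le hXa
    have hcov : SS ε' K f ∩ Icc 0 X ⊆
        ({t : ℝ | torusPt (al M) t ∈ VV M K f (ε' + (ε - ε') / 3)} ∩ Icc 0 X) ∪
          (bad M a b B θ ∩ Icc 0 X) := by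
      rintro t ⟨ht1, ht2⟩
      by_cases htb : t ∈ bad M a b B θ
      · exact Or.inr ⟨htb, ht2⟩
      · exact Or.inl ⟨(close_iff hlt hsub hCf hR hθ1 hθ0.le hθR htb).1 ht1, ht2⟩
    have h5 := hX1.trans ((measure_mono hcov).trans (measure_union_le _ _))
    have h6 := h5.trans (add_le_add (htime X hXb) (hmeas X hXa))
    rw [← ENNReal.ofReal_add (by positivity) (by positivity)] at h6
    have h7 := (ENNReal.ofReal_le_ofReal_iff (by positivity)).mp h6
    have h8 : D * X ≤ (μ + 3 * η1) * X := by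
      refine h7.trans ?_
      nlinarith
    exact le_of_mul_le_mul_right h8 hX0
  refine ⟨M, VV M K f (ε' + 2 * (ε - ε') / 3), VV_open (by linarith) M hsub f _, by linarith, ?_⟩
  obtain ⟨N0, hN0⟩ := hfew (bad M a b B θ) η1 T1 hη10 (by linarith) hzer
  refine ⟨N0, fun N hN P => ?_⟩
  have hbad := hN0 N hN
  have hbad2 : C * η1 * N ≤ η * N := mul_le_mul_of_nonneg_right hη1b (Nat.cast_nonneg N)
  have hfin2 : {n : ℕ | 1 ≤ n ∧ n ≤ N ∧ ord n ∈ SS ε K f ∧ P n}.Finite :=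
    (Set.finite_Icc 1 N).subset fun n hn => ⟨hn.1, hn.2.1⟩
  have hcov : {n : ℕ | 1 ≤ n ∧ n ≤ N ∧ torusPt (al M) (ord n) ∈ VV M K f (ε' + 2 * (ε - ε') / 3) ∧
      P n} ⊆ {n : ℕ | 1 ≤ n ∧ n ≤ N ∧ ord n ∈ SS ε K f ∧ P n} ∪
        (((Finset.Icc 1 N).filter (fun n => ord n ∈ bad M a b B θ) : Finset ℕ) : Set ℕ) := by
    rintro n ⟨c1, c2, c3, c4⟩
    by_cases hb : ord n ∈ bad M a b B θ
    · right
      rw [Finset.mem_coe, Finset.mem_filter, Finset.mem_Icc]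
      exact ⟨⟨c1, c2⟩, hb⟩
    · left
      exact ⟨c1, c2, (close_iff hlt hsub hCf hR hθ1 hθ0.le hθR hb).2 c3, c4⟩
  have h5 := (Set.ncard_le_ncard hcov (hfin2.union (Finset.finite_toSet _))).trans
    (Set.ncard_union_le _ _)
  rw [Set.ncard_coe_finset] at h5
  have h6 : ({n : ℕ | 1 ≤ n ∧ n ≤ N ∧ torusPt (al M) (ord n) ∈ VV M K f (ε' + 2 * (ε - ε') / 3) ∧
      P n}.ncard : ℝ) ≤ ({n : ℕ | 1 ≤ n ∧ n ≤ N ∧ ord n ∈ SS ε K f ∧ P n}.ncard : ℝ) +
        (((Finset.Icc 1 N).filter (fun n => ord n ∈ bad M a b B θ)).card : ℝ) := by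
    exact_mod_cast h5
  linarith

end Pool.Agent.R304.UB
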